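import Pool.Graph.R_seed8.H197R3.VN

/-!
# Group von Neumann algebras: translations, the involution, the commutation theorem
-/

set_option autoImplicit false
set_option linter.unusedSectionVars false

namespace Pool.Agent.Helper23.VT

open Pool.Agent.H197R3
open scoped InnerProductSpace ComplexConjugate

variable {G : Type} [Group G]

lemma ltv_orthonormal (g : G) : Orthonormal ℂ (fun y : G => bas G (g * y)) :=
  (bas G).orthonormal.comp _ (mul_right_injective g)

lemma ltv_dense (g : G) :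
    ⊤ ≤ (Submodule.span ℂ (Set.range (fun y : G => bas G (g * y)))).topologicalClosure := by
  have : Set.range (fun y : G => bas G (g * y)) = Set.range (bas G) := by
    ext v
    constructor
    · rintro ⟨y, rfl⟩; exact ⟨_, rfl⟩
    · rintro ⟨y, rfl⟩; exact ⟨g⁻¹ * y, by simp⟩
  rw [this, (bas G).dense_span]

lemma bas_eq_single (y : G) [DecidableEq G] : bas G y = lp.single 2 y (1 : ℂ) := by
  have := (bas G).repr_symm_single y
  rw [← this]; rfl

/-- left translation on `ℓ²(G)` -/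
noncomputable def lt (g : G) : L2 G ≃ₗᵢ[ℂ] L2 G :=
  (HilbertBasis.mk (ltv_orthonormal g) (ltv_dense g)).repr.symm

lemma lt_bas (g y : G) : lt g (bas G y) = bas G (g * y) := by
  classical
  rw [bas_eq_single y, lt, HilbertBasis.repr_symm_single, HilbertBasis.coe_mk]

lemma lt_apply (g : G) (f : L2 G) (x : G) : (lt g f) x = f (g⁻¹ * x) := by
  rw [← bas_inner, ← bas_inner]
  have : bas G x = lt g (bas G (g⁻¹ * x)) := by rw [lt_bas]; simp
  rw [this, LinearIsometryEquiv.inner_map_map]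

lemma inv_orthonormal : Orthonormal ℂ (fun y : G => bas G y⁻¹) :=
  (bas G).orthonormal.comp _ inv_injective

lemma inv_dense :
    ⊤ ≤ (Submodule.span ℂ (Set.range (fun y : G => bas G y⁻¹))).topologicalClosure := by
  have : Set.range (fun y : G => bas G y⁻¹) = Set.range (bas G) := by
    ext v
    constructor
    · rintro ⟨y, rfl⟩; exact ⟨_, rfl⟩
    · rintro ⟨y, rfl⟩; exact ⟨y⁻¹, by simp⟩
  rw [this, (bas G).dense_span]

/-- inversion on `ℓ²(G)` -/
noncomputable def iv : L2 G ≃ₗᵢ[ℂ] L2 G :=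
  (HilbertBasis.mk (inv_orthonormal (G := G)) inv_dense).repr.symm

lemma iv_bas (y : G) : iv (bas G y) = bas G y⁻¹ := by
  classical
  rw [bas_eq_single y, iv, HilbertBasis.repr_symm_single, HilbertBasis.coe_mk]

lemma iv_apply (f : L2 G) (x : G) : (iv f) x = f x⁻¹ := by
  rw [← bas_inner, ← bas_inner]
  have : bas G x = iv (bas G x⁻¹) := by rw [iv_bas]; simp
  rw [this, LinearIsometryEquiv.inner_map_map]

/-- the conjugate linear involution -/
noncomputable def J (f : L2 G) : L2 G := star (iv f)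

lemma J_apply (f : L2 G) (x : G) : (J f) x = conj (f x⁻¹) := by
  rw [J, lp.star_apply, iv_apply]; rfl

lemma J_J (f : L2 G) : J (J f) = f := by
  ext x; rw [J_apply, J_apply]; simp

lemma J_add (f g : L2 G) : J (f + g) = J f + J g := by
  ext x
  rw [J_apply, lp.coeFn_add, lp.coeFn_add, Pi.add_apply, Pi.add_apply, J_apply, J_apply, map_add]

lemma J_smul (c : ℂ) (f : L2 G) : J (c • f) = conj c • J f := by
  ext x
  rw [J_apply, lp.coeFn_smul, lp.coeFn_smul, Pi.smul_apply, Pi.smul_apply, J_apply, smul_eq_mul,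
    smul_eq_mul, map_mul]

lemma J_norm (f : L2 G) : ‖J f‖ = ‖f‖ := by
  rw [J, norm_star, LinearIsometryEquiv.norm_map]

lemma J_sub (f g : L2 G) : J (f - g) = J f - J g := by
  ext x
  rw [J_apply, lp.coeFn_sub, lp.coeFn_sub, Pi.sub_apply, Pi.sub_apply, J_apply, J_apply, map_sub]

lemma J_bas (y : G) : J (bas G y) = bas G y⁻¹ := by
  apply bas_ext
  intro x
  have h1 := J_apply (bas G y) x
  rw [bas_inner, bas_inner, h1, ← bas_inner, ← bas_inner]
  classical
  have h2 := orthonormal_iff_ite.1 (bas G).orthonormal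
  have e1 := h2 x⁻¹ y
  have e2 := h2 x y⁻¹
  rw [e1, e2]
  by_cases h : x⁻¹ = y
  · have h' : x = y⁻¹ := by rw [← h, inv_inv]
    rw [if_pos h, if_pos h', map_one]
  · have h' : ¬ x = y⁻¹ := fun e => h (by rw [e, inv_inv])
    rw [if_neg h, if_neg h', map_zero]

/-- the group von Neumann algebra, the commutant of the right translations -/
def VN (G : Type) [Group G] : Set (L2 G →L[ℂ] L2 G) :=
  {T | ∀ g : G, ∀ f f' : lp (fun _ : G => ℂ) 2,
    (∀ x : G, f' x = f (x * g)) → ∀ x : G, (T f') x = (T f) (x * g)}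

lemma mem_VN (T : L2 G →L[ℂ] L2 G) : T ∈ VN G ↔ ∀ g f, T (rt g f) = rt g (T f) :=
  mem_comm_iff T

lemma one_mem : (1 : L2 G →L[ℂ] L2 G) ∈ VN G := (mem_VN _).2 fun _ _ => rfl

lemma mul_mem {S T : L2 G →L[ℂ] L2 G} (hS : S ∈ VN G) (hT : T ∈ VN G) : S * T ∈ VN G := by
  rw [mem_VN] at hS hT ⊢
  intro g f
  show S (T (rt g f)) = rt g (S (T f))
  rw [hT, hS]

lemma star_mem {S : L2 G →L[ℂ] L2 G} (hS : S ∈ VN G) : star S ∈ VN G := by
  rw [mem_VN] at hS ⊢
  intro g f
  apply ext_inner_right ℂ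
  intro v
  rw [ContinuousLinearMap.star_eq_adjoint, ContinuousLinearMap.adjoint_inner_left]
  have e1 : v = rt g ((rt g).symm v) := by simp
  have e2 : S v = rt g (S ((rt g).symm v)) := by
    conv_lhs => rw [e1]
    rw [hS]
  rw [e2, LinearIsometryEquiv.inner_map_map]
  conv_rhs => rw [e1]
  rw [LinearIsometryEquiv.inner_map_map, ContinuousLinearMap.adjoint_inner_left]

/-- left translations as operators -/
noncomputable def L (g : G) : L2 G →L[ℂ] L2 G := ((lt g : L2 G ≃ₗᵢ[ℂ] L2 G) : L2 G →L[ℂ] L2 G)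

lemma L_apply (g : G) (f : L2 G) (x : G) : (L g f) x = f (g⁻¹ * x) := lt_apply g f x

lemma L_mul (g h : G) : L (g * h) = L g * L h := by
  ext f x
  show (L (g * h) f) x = (L g (L h f)) x
  rw [L_apply, L_apply, L_apply, mul_inv_rev, mul_assoc]

lemma L_one : L (1 : G) = 1 := by
  ext f x
  rw [L_apply, inv_one, one_mul]
  rfl

lemma L_mem (g : G) : L g ∈ VN G := by
  rw [mem_VN]
  intro h f
  ext x
  rw [L_apply, rt_apply, rt_apply, L_apply, mul_assoc]

lemma L_norm (g : G) (f : L2 G) : ‖L g f‖ = ‖f‖ := (lt g).norm_map f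

lemma L_star_mul (g : G) : star (L g) * L g = 1 :=
  (ContinuousLinearMap.norm_map_iff_adjoint_comp_self _).1 (L_norm g)

lemma VN_bas {S : L2 G →L[ℂ] L2 G} (hS : S ∈ VN G) (k : G) :
    S (bas G k) = rt k⁻¹ (S (bas G 1)) := by
  rw [← (mem_VN S).1 hS, rt_bas, one_mul, inv_inv]

lemma VN_bas_apply {S : L2 G →L[ℂ] L2 G} (hS : S ∈ VN G) (k x : G) :
    (S (bas G k)) x = (S (bas G 1)) (x * k⁻¹) := by
  rw [VN_bas hS, rt_apply]

/-- the vacuum vector is separating -/
lemma VN_sep {S : L2 G →L[ℂ] L2 G} (hS : S ∈ VN G) (h : S (bas G 1) = 0) : S = 0 := by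
  have h1 : ∀ k, S (bas G k) = 0 := fun k => by rw [VN_bas hS, h, map_zero]
  have h2 : (Submodule.span ℂ (Set.range (bas G))).topologicalClosure ≤ LinearMap.ker S.toLinearMap := by
    apply Submodule.topologicalClosure_minimal
    · rw [Submodule.span_le]
      rintro _ ⟨k, rfl⟩
      exact h1 k
    · exact S.isClosed_ker
  rw [(bas G).dense_span] at h2
  ext1 f
  exact h2 (Submodule.mem_top : f ∈ ⊤)

lemma star_bas_apply {S : L2 G →L[ℂ] L2 G} (hS : S ∈ VN G) (x : G) :
    (star S (bas G 1)) x = conj ((S (bas G 1)) x⁻¹) := by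
  rw [← bas_inner, ContinuousLinearMap.star_eq_adjoint, ContinuousLinearMap.adjoint_inner_right,
    ← inner_conj_symm, bas_inner, VN_bas_apply hS, one_mul]

lemma J_VN_bas {S : L2 G →L[ℂ] L2 G} (hS : S ∈ VN G) : J (S (bas G 1)) = star S (bas G 1) := by
  ext x
  rw [J_apply, star_bas_apply hS]

/-- `J T J` -/
noncomputable def R (T : L2 G →L[ℂ] L2 G) : L2 G →L[ℂ] L2 G :=
  LinearMap.mkContinuous
    { toFun := fun f => J (T (J f))
      map_add' := fun f g => by rw [J_add, map_add, J_add]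
      map_smul' := fun c f => by rw [J_smul, map_smul, J_smul]; simp } ‖T‖
    (fun f => by
      show ‖J (T (J f))‖ ≤ ‖T‖ * ‖f‖
      rw [J_norm]
      refine (T.le_opNorm _).trans ?_
      rw [J_norm])

lemma R_apply (T : L2 G →L[ℂ] L2 G) (f : L2 G) : R T f = J (T (J f)) := rfl

lemma R_mul (S T : L2 G →L[ℂ] L2 G) : R (S * T) = R S * R T := by
  ext1 f
  show J ((S * T) (J f)) = J (S (J (J (T (J f)))))
  rw [J_J]
  rfl

lemma R_one : R (1 : L2 G →L[ℂ] L2 G) = 1 := by
  ext1 f
  show J (J f) = f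
  rw [J_J]

lemma R_coeff {T : L2 G →L[ℂ] L2 G} (hT : T ∈ VN G) (k x : G) :
    (R T (bas G k)) x = (star T (bas G 1)) (k⁻¹ * x) := by
  rw [R_apply, J_bas, J_apply, VN_bas_apply hT, star_bas_apply hT, inv_inv]
  congr 2
  rw [mul_inv_rev, inv_inv]

/-- matrix coefficients determine an operator -/
lemma op_ext {S T : L2 G →L[ℂ] L2 G} (h : ∀ g k, ⟪bas G g, S (bas G k)⟫_ℂ = ⟪bas G g, T (bas G k)⟫_ℂ) :
    S = T := by
  have h1 : ∀ k, (S - T) (bas G k) = 0 := fun k => by
    rw [sub_apply, sub_eq_zero]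
    exact bas_ext (h · k)
  have h2 : (Submodule.span ℂ (Set.range (bas G))).topologicalClosure ≤
      LinearMap.ker (S - T).toLinearMap := by
    apply Submodule.topologicalClosure_minimal
    · rw [Submodule.span_le]
      rintro _ ⟨k, rfl⟩
      exact h1 k
    · exact (S - T).isClosed_ker
  rw [(bas G).dense_span] at h2
  rw [← sub_eq_zero]
  ext1 f
  exact h2 (Submodule.mem_top : f ∈ ⊤)

/-- The commutation theorem. -/
theorem commute {S T : L2 G →L[ℂ] L2 G} (hS : S ∈ VN G) (hT : T ∈ VN G) : S * R T = R T * S := by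
  apply op_ext
  intro g k
  have e1 : ⟪bas G g, (S * R T) (bas G k)⟫_ℂ = ∑' h, (S (bas G 1)) (g * h⁻¹) *
      (star T (bas G 1)) (k⁻¹ * h) := by
    show ⟪bas G g, S (R T (bas G k))⟫_ℂ = _
    rw [← ContinuousLinearMap.adjoint_inner_left, lp.inner_eq_tsum]
    congr 1
    funext h
    have hs := star_mem hS
    rw [← ContinuousLinearMap.star_eq_adjoint, VN_bas_apply hs, star_bas_apply hS, R_coeff hT,
      RCLike.inner_apply, mul_comm]
    simp
  have hRs : ∀ h, ⟪R T (bas G h), bas G g⟫_ℂ = conj ((star T (bas G 1)) (h⁻¹ * g)) := fun h => by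
    rw [← inner_conj_symm, bas_inner, R_coeff hT]
  have e2 : ⟪bas G g, (R T * S) (bas G k)⟫_ℂ = ∑' h, (S (bas G 1)) (h * k⁻¹) *
      (star T (bas G 1)) (h⁻¹ * g) := by
    show ⟪bas G g, R T (S (bas G k))⟫_ℂ = _
    rw [← ContinuousLinearMap.adjoint_inner_left, lp.inner_eq_tsum]
    congr 1
    funext h
    rw [VN_bas_apply hS, ← bas_inner h (ContinuousLinearMap.adjoint (R T) (bas G g)),
      ContinuousLinearMap.adjoint_inner_right, hRs, RCLike.inner_apply, mul_comm]
    simp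
    exact mul_comm _ _
  rw [e1, e2]
  let e : G ≃ G :=
    { toFun := fun h => g * h⁻¹ * k
      invFun := fun h => k * h⁻¹ * g
      left_inv := fun h => by simp [mul_assoc]
      right_inv := fun h => by simp [mul_assoc] }
  rw [← e.tsum_eq (fun h => (S (bas G 1)) (h * k⁻¹) * (star T (bas G 1)) (h⁻¹ * g))]
  congr 1
  funext h
  show _ = (S (bas G 1)) (g * h⁻¹ * k * k⁻¹) * (star T (bas G 1)) ((g * h⁻¹ * k)⁻¹ * g)
  congr 2
  · simp
  · simp [mul_assoc]

end Pool.Agent.Helper23.VT
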