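import Pool.Agent.Helper23.VT.Kaz

/-!
# Countability of the quotients with von Neumann algebra in a given one
-/

set_option autoImplicit false
set_option linter.unusedSectionVars false

namespace Pool.Agent.Helper23.VT

open Pool.Agent.H197R3
open scoped InnerProductSpace ComplexConjugate

/-- `L(H)` is isomorphic to a von Neumann subalgebra of `L(G)` with the same unit. -/
def Embeds (H G : Type) [Group H] [Group G] : Prop :=
  ∃ Φ : (L2 H →L[ℂ] L2 H) → (L2 G →L[ℂ] L2 G), EmbVN H G Φ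

/-- The kernels of the homomorphisms from `Γ` to groups whose von Neumann algebra embeds in `L(G)`. -/
def Ker (Γ G : Type) [Group Γ] [Group G] : Set (Subgroup Γ) :=
  {N | ∃ (H : Type) (_ : Group H) (φ : Γ →* H), φ.ker = N ∧ Embeds H G}

theorem finite_of_close {Γ H H' G : Type} [Group Γ] [Group H] [Group H'] [Group G]
    {Φ : (L2 H →L[ℂ] L2 H) → (L2 G →L[ℂ] L2 G)} {Φ' : (L2 H' →L[ℂ] L2 H') → (L2 G →L[ℂ] L2 G)}
    {S : Finset Γ} {ε : ℝ} (hK : Kazhdan Γ S ε) (h : EmbVN H G Φ) (h' : EmbVN H' G Φ')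
    (φ : Γ →* H) (φ' : Γ →* H')
    (hc : ∀ s ∈ S, ‖Φ (L (φ s)) (bas G 1) - Φ' (L (φ' s)) (bas G 1)‖ < ε) :
    φ.ker.relIndex φ'.ker ≠ 0 := by
  obtain ⟨w, hw, hfix⟩ := hK.2 (L2 G) (rep h h' φ φ') (rep_unitary h h' φ φ')
    ⟨bas G 1, (bas G).orthonormal.1 1, fun s hs => by rw [rep_bas]; exact hc s hs⟩
  have hfin : (φ'.ker.map φ : Set H).Finite := by
    apply finite_of_fixed h _ w hw
    rintro _ ⟨γ, hγ, rfl⟩
    have h1 := hfix γ
    rw [rep_apply, (hγ : φ' γ = 1), h'.u_one, R_one] at h1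
    exact h1
  rw [Subgroup.relIndex_ker]
  have : Finite (φ'.ker.map φ) := hfin.to_subtype
  exact Nat.card_pos.ne'

theorem commensurable_of_close {Γ H H' G : Type} [Group Γ] [Group H] [Group H'] [Group G]
    {Φ : (L2 H →L[ℂ] L2 H) → (L2 G →L[ℂ] L2 G)} {Φ' : (L2 H' →L[ℂ] L2 H') → (L2 G →L[ℂ] L2 G)}
    {S : Finset Γ} {ε : ℝ} (hK : Kazhdan Γ S ε) (h : EmbVN H G Φ) (h' : EmbVN H' G Φ')
    (φ : Γ →* H) (φ' : Γ →* H')
    (hc : ∀ s ∈ S, ‖Φ (L (φ s)) (bas G 1) - Φ' (L (φ' s)) (bas G 1)‖ < ε) :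
    φ.ker.Commensurable φ'.ker :=
  ⟨finite_of_close hK h h' φ φ' hc,
    finite_of_close hK h' h φ' φ fun s hs => by rw [norm_sub_rev]; exact hc s hs⟩

theorem separable (G : Type) [Group G] [Countable G] : TopologicalSpace.SeparableSpace (L2 G) := by
  rw [← TopologicalSpace.isSeparable_univ_iff]
  have h1 : TopologicalSpace.IsSeparable (Set.range (bas G)) := (Set.countable_range _).isSeparable
  have h2 := (h1.span (R := ℂ)).closure
  have h3 : closure ((Submodule.span ℂ (Set.range (bas G)) : Submodule ℂ (L2 G)) : Set (L2 G)) =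
      Set.univ := by
    rw [← Submodule.topologicalClosure_coe, (bas G).dense_span]
    rfl
  rwa [h3] at h2

theorem countable_classes (Γ G : Type) [Group Γ] [Group G] [Countable G] {S : Finset Γ} {ε : ℝ}
    (hK : Kazhdan Γ S ε) (𝒦 : Set (Subgroup Γ)) (h𝒦 : 𝒦 ⊆ Ker Γ G) :
    ∃ 𝒞 : Set (Subgroup Γ), 𝒞.Countable ∧ 𝒞 ⊆ 𝒦 ∧ ∀ N ∈ 𝒦, ∃ N₀ ∈ 𝒞, N.Commensurable N₀ := by
  have := separable G
  have h1 : ∀ N : 𝒦, ∃ f : Γ → L2 G, ∃ (H : Type) (_ : Group H) (φ : Γ →* H)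
      (Φ : (L2 H →L[ℂ] L2 H) → (L2 G →L[ℂ] L2 G)), φ.ker = (N : Subgroup Γ) ∧ EmbVN H G Φ ∧
        ∀ γ, f γ = Φ (L (φ γ)) (bas G 1) := by
    rintro ⟨N, hN⟩
    obtain ⟨H, hH, φ, hφ, Φ, hΦ⟩ := h𝒦 hN
    exact ⟨fun γ => Φ (L (φ γ)) (bas G 1), H, hH, φ, Φ, hφ, hΦ, fun _ => rfl⟩
  choose f hf using h1
  let F : 𝒦 → (S → L2 G) := fun N s => f N s
  have hsep : TopologicalSpace.IsSeparable (Set.range F) :=
    (TopologicalSpace.isSeparable_univ_iff.2 inferInstance).mono (Set.subset_univ _)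
  obtain ⟨t, ht1, ht2, ht3⟩ := hsep.exists_countable_dense_subset
  have hg : ∀ a : t, ∃ N : 𝒦, F N = a := fun a => ht1 a.2
  choose g hg using hg
  have : Countable t := ht2.to_subtype
  refine ⟨Set.range fun a : t => (g a : Subgroup Γ), Set.countable_range _, ?_, ?_⟩
  · rintro _ ⟨a, rfl⟩
    exact (g a).2
  · intro N hN
    have h2 : F ⟨N, hN⟩ ∈ closure t := ht3 ⟨_, rfl⟩
    obtain ⟨b, hb, hdist⟩ := Metric.mem_closure_iff.1 h2 ε hK.1
    refine ⟨_, ⟨⟨b, hb⟩, rfl⟩, ?_⟩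
    have hb' : F (g ⟨b, hb⟩) = b := hg ⟨b, hb⟩
    rw [← hb'] at hdist
    obtain ⟨H, hH, φ, Φ, hφ, hΦ, hfφ⟩ := hf ⟨N, hN⟩
    obtain ⟨H', hH', φ', Φ', hφ', hΦ', hfφ'⟩ := hf (g ⟨b, hb⟩)
    have h3 := commensurable_of_close hK hΦ hΦ' φ φ' (by
      intro s hs
      rw [← hfφ, ← hfφ', ← dist_eq_norm]
      exact (dist_le_pi_dist (F ⟨N, hN⟩) (F (g ⟨b, hb⟩)) ⟨s, hs⟩).trans_lt hdist)
    rw [hφ, hφ'] at h3
    exact h3

/-- Quotients by commensurable normal subgroups are isomorphic modulo finite normal subgroups. -/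
theorem virt {Γ : Type} [Group Γ] (N N₀ : Subgroup Γ) [N.Normal] [N₀.Normal]
    (h : N.Commensurable N₀) : ∃ (F : Subgroup (Γ ⧸ N)) (F₀ : Subgroup (Γ ⧸ N₀))
      (_ : F.Normal) (_ : F₀.Normal), Finite F ∧ Finite F₀ ∧
        Nonempty ((Γ ⧸ N) ⧸ F ≃* (Γ ⧸ N₀) ⧸ F₀) := by
  have key : ∀ (A B : Subgroup Γ) [A.Normal] [B.Normal], A.relIndex B ≠ 0 →
      Finite ((A ⊔ B).map (QuotientGroup.mk' A)) := by
    intro A B _ _ hAB
    have e : (A ⊔ B).map (QuotientGroup.mk' A) = B.map (QuotientGroup.mk' A) := by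
      rw [Subgroup.map_sup, QuotientGroup.map_mk'_self, bot_sup_eq]
    rw [e]
    apply Nat.finite_of_card_ne_zero
    rw [← Subgroup.relIndex_ker, QuotientGroup.ker_mk']
    exact hAB
  refine ⟨(N ⊔ N₀).map (QuotientGroup.mk' N), (N₀ ⊔ N).map (QuotientGroup.mk' N₀),
    inferInstance, inferInstance, key N N₀ h.1, key N₀ N h.2, ⟨?_⟩⟩
  refine (QuotientGroup.quotientQuotientEquivQuotient N (N ⊔ N₀) le_sup_left).trans ?_
  refine MulEquiv.trans ?_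
    (QuotientGroup.quotientQuotientEquivQuotient N₀ (N₀ ⊔ N) le_sup_left).symm
  exact QuotientGroup.quotientMulEquivOfEq (sup_comm _ _)

end Pool.Agent.Helper23.VT
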