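import Pool.Agent.Helper23.VT.Base

/-!
# Property (T) and group von Neumann algebras: close homomorphisms have commensurable kernels
-/

set_option autoImplicit false
set_option linter.unusedSectionVars false

namespace Pool.Agent.Helper23.VT

open Pool.Agent.H197R3
open scoped InnerProductSpace ComplexConjugate

/-- `Φ` is a *-isomorphism of `L(H)` onto `L(G)`. -/
structure IsoVN (H G : Type) [Group H] [Group G]
    (Φ : (L2 H →L[ℂ] L2 H) → (L2 G →L[ℂ] L2 G)) : Prop where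
  bij : Set.BijOn Φ (VN H) (VN G)
  alg : ∀ x ∈ VN H, ∀ y ∈ VN H, Φ (x + y) = Φ x + Φ y ∧ Φ (x * y) = Φ x * Φ y ∧
    Φ (star x) = star (Φ x) ∧ ∀ c : ℂ, Φ (c • x) = c • Φ x

/-- `Φ` is a *-isomorphism of `L(H)` onto a von Neumann subalgebra of `L(G)` with the same unit: the
image is its own bicommutant. -/
structure EmbVN (H G : Type) [Group H] [Group G]
    (Φ : (L2 H →L[ℂ] L2 H) → (L2 G →L[ℂ] L2 G)) : Prop where
  maps : Set.MapsTo Φ (VN H) (VN G)
  inj : Set.InjOn Φ (VN H)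
  one : Φ 1 = 1
  alg : ∀ x ∈ VN H, ∀ y ∈ VN H, Φ (x + y) = Φ x + Φ y ∧ Φ (x * y) = Φ x * Φ y ∧
    Φ (star x) = star (Φ x) ∧ ∀ c : ℂ, Φ (c • x) = c • Φ x
  bicomm : ∀ T : L2 G →L[ℂ] L2 G,
    (∀ X : L2 G →L[ℂ] L2 G, (∀ y ∈ VN H, X * Φ y = Φ y * X) → X * T = T * X) →
      ∃ y ∈ VN H, Φ y = T

/-- `(S, ε)` is a Kazhdan pair of `Γ`. -/
def Kazhdan (Γ : Type) [Group Γ] (S : Finset Γ) (ε : ℝ) : Prop :=
  0 < ε ∧ ∀ (E : Type) [NormedAddCommGroup E] [InnerProductSpace ℂ E] [CompleteSpace E]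
    (π : Γ →* (E →L[ℂ] E)), (∀ g : Γ, π g ∈ unitary (E →L[ℂ] E)) →
    (∃ v : E, ‖v‖ = 1 ∧ ∀ s ∈ S, ‖(π s) v - v‖ < ε) →
    ∃ w : E, w ≠ 0 ∧ ∀ g : Γ, (π g) w = w

section

variable {H G : Type} [Group H] [Group G] {Φ : (L2 H →L[ℂ] L2 H) → (L2 G →L[ℂ] L2 G)}

lemma IsoVN.one (h : IsoVN H G Φ) : Φ 1 = 1 := by
  obtain ⟨x, hx, e⟩ := h.bij.surjOn (one_mem (G := G))
  have := (h.alg 1 one_mem x hx).2.1
  rw [one_mul, e, mul_one] at this
  exact this.symm

lemma IsoVN.emb (h : IsoVN H G Φ) : EmbVN H G Φ where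
  maps := h.bij.mapsTo
  inj := h.bij.injOn
  one := h.one
  alg := h.alg
  bicomm T hT := by
    apply h.bij.surjOn
    rw [mem_VN]
    intro g f
    have h1 := hT ((rt g : L2 G ≃ₗᵢ[ℂ] L2 G) : L2 G →L[ℂ] L2 G) (by
      intro y hy
      ext1 f
      exact ((mem_VN _).1 (h.bij.mapsTo hy) g f).symm)
    exact (congrArg (fun A : L2 G →L[ℂ] L2 G => A f) h1).symm

lemma EmbVN.zero (h : EmbVN H G Φ) : Φ 0 = 0 := by
  have := (h.alg 1 one_mem 1 one_mem).2.2.2 0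
  rwa [zero_smul, zero_smul] at this

lemma EmbVN.u_mem (h : EmbVN H G Φ) (a : H) : Φ (L a) ∈ VN G := h.maps (L_mem a)

lemma EmbVN.u_mul (h : EmbVN H G Φ) (a b : H) : Φ (L (a * b)) = Φ (L a) * Φ (L b) := by
  rw [L_mul]; exact (h.alg _ (L_mem a) _ (L_mem b)).2.1

lemma EmbVN.u_one (h : EmbVN H G Φ) : Φ (L 1) = 1 := by rw [L_one, h.one]

lemma EmbVN.u_star_mul (h : EmbVN H G Φ) (a : H) : star (Φ (L a)) * Φ (L a) = 1 := by
  have h1 := (h.alg _ (L_mem a) _ (L_mem a)).2.2.1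
  have h2 := (h.alg _ (star_mem (L_mem a)) _ (L_mem a)).2.1
  rw [L_star_mul, h.one, h1] at h2
  exact h2.symm

lemma EmbVN.u_norm (h : EmbVN H G Φ) (a : H) (f : L2 G) : ‖Φ (L a) f‖ = ‖f‖ :=
  (ContinuousLinearMap.norm_map_iff_adjoint_comp_self _).2 (h.u_star_mul a) f

lemma EmbVN.u_mul_inv (h : EmbVN H G Φ) (a : H) : Φ (L a) * Φ (L a⁻¹) = 1 := by
  rw [← h.u_mul, mul_inv_cancel, h.u_one]

lemma EmbVN.u_star (h : EmbVN H G Φ) (a : H) : star (Φ (L a)) = Φ (L a⁻¹) := by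
  have h1 : star (Φ (L a)) * (Φ (L a) * Φ (L a⁻¹)) = Φ (L a⁻¹) := by
    rw [← mul_assoc, h.u_star_mul, one_mul]
  rwa [h.u_mul_inv, mul_one] at h1

/-- A nonzero vector fixed by the image of a subgroup forces the subgroup to be finite. -/
theorem finite_of_fixed (h : EmbVN H G Φ) (K : Subgroup H) (w : L2 G) (hw : w ≠ 0)
    (hK : ∀ k ∈ K, Φ (L k) w = w) : (K : Set H).Finite := by
  let W : Submodule ℂ (L2 G) :=
    { carrier := {v | ∀ k ∈ K, Φ (L k) v = v}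
      add_mem' := fun {a b} ha hb k hk => by rw [map_add, ha k hk, hb k hk]
      zero_mem' := fun k _ => map_zero _
      smul_mem' := fun c a ha k hk => by rw [map_smul, ha k hk] }
  have hWc : IsClosed (W : Set (L2 G)) := by
    have e : (W : Set (L2 G)) = ⋂ k ∈ K, {v | Φ (L k) v = v} := by
      ext v; simp [W]
    rw [e]
    exact isClosed_biInter fun k _ => isClosed_eq (Φ (L k)).continuous continuous_id
  have : CompleteSpace W := hWc.completeSpace_coe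
  obtain ⟨Q, hQ, hQP⟩ := h.bicomm W.starProjection (by
    intro X hX
    have hX' : ∀ y ∈ VN H, star X * Φ y = Φ y * star X := by
      intro y hy
      have h1 := hX (star y) (star_mem hy)
      rw [(h.alg y hy y hy).2.2.1] at h1
      have h2 := congrArg star h1
      rw [star_mul, star_mul, star_star] at h2
      exact h2.symm
    have hXW : ∀ v ∈ W, X v ∈ W := by
      intro v hv k hk
      calc Φ (L k) (X v) = (Φ (L k) * X) v := rfl
        _ = (X * Φ (L k)) v := by rw [hX _ (L_mem k)]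
        _ = X (Φ (L k) v) := rfl
        _ = X v := by rw [hv k hk]
    have hXW' : ∀ v ∈ W, (star X) v ∈ W := by
      intro v hv k hk
      calc Φ (L k) ((star X) v) = (Φ (L k) * star X) v := rfl
        _ = (star X * Φ (L k)) v := by rw [hX' _ (L_mem k)]
        _ = (star X) (Φ (L k) v) := rfl
        _ = (star X) v := by rw [hv k hk]
    ext1 f
    show X (W.starProjection f) = W.starProjection (X f)
    symm
    apply Submodule.eq_starProjection_of_mem_of_inner_eq_zero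
    · exact hXW _ (Submodule.starProjection_apply_mem W f)
    · intro w' hw'
      rw [← map_sub, ← ContinuousLinearMap.adjoint_inner_right]
      exact Submodule.starProjection_inner_eq_zero f _ (hXW' _ hw'))
  have hPw : W.starProjection w = w := Submodule.starProjection_eq_self_iff.2 hK
  have hQ0 : Q ≠ 0 := by
    rintro rfl
    rw [h.zero] at hQP
    rw [← hQP] at hPw
    exact hw hPw.symm
  have hLQ : ∀ k ∈ K, L k * Q = Q := by
    intro k hk
    apply h.inj (mul_mem (L_mem k) hQ) hQ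
    rw [(h.alg _ (L_mem k) _ hQ).2.1, hQP]
    ext1 f
    exact (Submodule.starProjection_apply_mem W f) k hk
  set q := Q (bas H 1) with hq
  have hq0 : q ≠ 0 := fun e => hQ0 (VN_sep hQ e)
  have hinv : ∀ k ∈ K, ∀ x, q (k * x) = q x := by
    intro k hk x
    have h1 : L k⁻¹ q = q := by
      have := hLQ k⁻¹ (K.inv_mem hk)
      calc L k⁻¹ q = (L k⁻¹ * Q) (bas H 1) := rfl
        _ = q := by rw [this]
    have h2 := L_apply k⁻¹ q x
    rw [h1, inv_inv] at h2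
    exact h2.symm
  obtain ⟨x, hx⟩ : ∃ x, q x ≠ 0 := by
    by_contra hcon
    push Not at hcon
    exact hq0 (lp.ext (funext hcon))
  have hsum : Summable fun i => ‖q i‖ ^ (2 : ENNReal).toReal :=
    (lp.memℓp q).summable (by norm_num)
  have htend := hsum.tendsto_cofinite_zero
  have hpos : 0 < ‖q x‖ ^ (2 : ENNReal).toReal := by
    have : 0 < ‖q x‖ := norm_pos_iff.2 hx
    positivity
  have hfin := (htend.eventually_lt_const hpos)
  rw [Filter.eventually_cofinite] at hfin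
  have hsub : (fun k : H => k * x) '' (K : Set H) ⊆
      {i | ¬ ‖q i‖ ^ (2 : ENNReal).toReal < ‖q x‖ ^ (2 : ENNReal).toReal} := by
    rintro _ ⟨k, hk, rfl⟩
    show ¬ _ < _
    rw [hinv k hk x]
    exact lt_irrefl _
  exact (hfin.subset hsub).of_finite_image (mul_left_injective x).injOn

end

section

variable {Γ H H' G : Type} [Group Γ] [Group H] [Group H'] [Group G]
  {Φ : (L2 H →L[ℂ] L2 H) → (L2 G →L[ℂ] L2 G)} {Φ' : (L2 H' →L[ℂ] L2 H') → (L2 G →L[ℂ] L2 G)}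

lemma R_norm {T : L2 G →L[ℂ] L2 G} (hT : ∀ f, ‖T f‖ = ‖f‖) (f : L2 G) : ‖R T f‖ = ‖f‖ := by
  rw [R_apply, J_norm, hT, J_norm]

/-- the representation of `Γ` by left and right multiplication -/
noncomputable def rep (h : EmbVN H G Φ) (h' : EmbVN H' G Φ') (φ : Γ →* H) (φ' : Γ →* H') :
    Γ →* (L2 G →L[ℂ] L2 G) where
  toFun γ := Φ (L (φ γ)) * R (Φ' (L (φ' γ)))
  map_one' := by rw [map_one, map_one, h.u_one, h'.u_one, R_one, mul_one]
  map_mul' γ δ := by
    rw [map_mul, map_mul, h.u_mul, h'.u_mul, R_mul]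
    have := commute (h.u_mem (φ δ)) (h'.u_mem (φ' γ))
    calc Φ (L (φ γ)) * Φ (L (φ δ)) * (R (Φ' (L (φ' γ))) * R (Φ' (L (φ' δ)))) =
        Φ (L (φ γ)) * (Φ (L (φ δ)) * R (Φ' (L (φ' γ)))) * R (Φ' (L (φ' δ))) := by
          simp only [mul_assoc]
      _ = _ := by rw [this]; simp only [mul_assoc]

lemma rep_apply (h : EmbVN H G Φ) (h' : EmbVN H' G Φ') (φ : Γ →* H) (φ' : Γ →* H') (γ : Γ)
    (f : L2 G) : rep h h' φ φ' γ f = Φ (L (φ γ)) (R (Φ' (L (φ' γ))) f) := rfl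

lemma rep_norm (h : EmbVN H G Φ) (h' : EmbVN H' G Φ') (φ : Γ →* H) (φ' : Γ →* H') (γ : Γ)
    (f : L2 G) : ‖rep h h' φ φ' γ f‖ = ‖f‖ := by
  rw [rep_apply, h.u_norm, R_norm (h'.u_norm _)]

lemma rep_unitary (h : EmbVN H G Φ) (h' : EmbVN H' G Φ') (φ : Γ →* H) (φ' : Γ →* H') (γ : Γ) :
    rep h h' φ φ' γ ∈ unitary (L2 G →L[ℂ] L2 G) := by
  have h1 : star (rep h h' φ φ' γ) * rep h h' φ φ' γ = 1 :=
    (ContinuousLinearMap.norm_map_iff_adjoint_comp_self _).1 (rep_norm h h' φ φ' γ)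
  have h2 : rep h h' φ φ' γ * rep h h' φ φ' γ⁻¹ = 1 := by
    rw [← map_mul, mul_inv_cancel, map_one]
  have h3 : star (rep h h' φ φ' γ) = rep h h' φ φ' γ⁻¹ := by
    have e : star (rep h h' φ φ' γ) * (rep h h' φ φ' γ * rep h h' φ φ' γ⁻¹) =
        rep h h' φ φ' γ⁻¹ := by rw [← mul_assoc, h1, one_mul]
    rwa [h2, mul_one] at e
  rw [Unitary.mem_iff]
  exact ⟨h1, by rw [h3, h2]⟩

lemma rep_bas (h : EmbVN H G Φ) (h' : EmbVN H' G Φ') (φ : Γ →* H) (φ' : Γ →* H') (γ : Γ) :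
    ‖rep h h' φ φ' γ (bas G 1) - bas G 1‖ =
      ‖Φ (L (φ γ)) (bas G 1) - Φ' (L (φ' γ)) (bas G 1)‖ := by
  set a := Φ (L (φ γ)) with ha
  set T := Φ' (L (φ' γ)) with hT
  set b := Φ' (L (φ' γ)⁻¹) with hb
  have hTm : T ∈ VN G := h'.u_mem _
  have hbm : b ∈ VN G := h'.u_mem _
  have e1 : rep h h' φ φ' γ (bas G 1) = R T (a (bas G 1)) := by
    rw [rep_apply]
    show (a * R T) (bas G 1) = (R T * a) (bas G 1)
    rw [commute (h.u_mem (φ γ)) hTm]
  have e2 : bas G 1 = R T (R b (bas G 1)) := by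
    show bas G 1 = (R T * R b) (bas G 1)
    rw [← R_mul, h'.u_mul_inv, R_one]
    rfl
  have e3 : R b (bas G 1) = T (bas G 1) := by
    rw [R_apply, J_bas, inv_one, J_VN_bas hbm]
    have : star b = T := by
      rw [hb, h'.u_star, inv_inv]
    rw [this]
  have e4 : R T (a (bas G 1)) - bas G 1 = R T (a (bas G 1) - T (bas G 1)) := by
    rw [map_sub, ← e3, ← e2]
  rw [e1, e4, R_norm (h'.u_norm _)]

end

end Pool.Agent.Helper23.VT
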