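import Pool.Agent.Helper23.VT.Cnt

/-!
# The notions of the statement, over named types
-/

set_option autoImplicit false
set_option linter.unusedSectionVars false

namespace Pool.Agent.Helper23.VT.Sm

open Pool.Agent.H197R3

/-- the Hilbert space `ℓ²(G)` -/
noncomputable def E2 (G : Type) : Type := L2 G

/-- the norm of `ℓ²(G)` -/
noncomputable def nrm (G : Type) : NormedAddCommGroup (L2 G) := inferInstance

/-- the inner product of `ℓ²(G)` -/
noncomputable def ips (G : Type) : InnerProductSpace ℂ (L2 G) := inferInstance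

theorem cmp (G : Type) : CompleteSpace (L2 G) := inferInstance

noncomputable instance iN (G : Type) : NormedAddCommGroup (E2 G) := nrm G

noncomputable instance iI (G : Type) : InnerProductSpace ℂ (E2 G) := ips G

instance iC (G : Type) : CompleteSpace (E2 G) := cmp G

/-- the bounded operators on `ℓ²(G)` -/
abbrev Op (G : Type) : Type := E2 G →L[ℂ] E2 G

/-- the value of `f` at `x` -/
noncomputable def val {G : Type} (f : E2 G) (x : G) : ℂ := (show L2 G from f) x

/-- the group von Neumann algebra, the commutant of the right translations -/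
def VN (G : Type) [Group G] : Set (Op G) :=
  {T | ∀ g : G, ∀ f f' : E2 G, (∀ x : G, val f' x = val f (x * g)) →
    ∀ x : G, val (T f') x = val (T f) (x * g)}

/-- `Φ` is a *-homomorphism on `L(H)`. -/
def Hom {H G : Type} [Group H] [Group G] (Φ : Op H → Op G) : Prop :=
  ∀ x ∈ VN H, ∀ y ∈ VN H, Φ (x + y) = Φ x + Φ y ∧ Φ (x * y) = Φ x * Φ y ∧
    Φ (star x) = star (Φ x) ∧ ∀ c : ℂ, Φ (c • x) = c • Φ x

/-- `X` and `Y` commute. -/
def Comm {G : Type} (X Y : Op G) : Prop := X * Y = Y * X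

/-- `Φ` is a *-isomorphism of `L(H)` onto a von Neumann subalgebra of `L(G)` with the same unit: the
image is its own bicommutant. -/
def Emb {H G : Type} [Group H] [Group G] (Φ : Op H → Op G) : Prop :=
  Set.MapsTo Φ (VN H) (VN G) ∧ Set.InjOn Φ (VN H) ∧ Φ 1 = 1 ∧ Hom Φ ∧
    ∀ T : Op G, (∀ X : Op G, (∀ y ∈ VN H, Comm X (Φ y)) → Comm X T) → ∃ y ∈ VN H, Φ y = T

/-- `Φ` is a *-isomorphism of `L(H)` onto `L(G)`. -/
def Iso {H G : Type} [Group H] [Group G] (Φ : Op H → Op G) : Prop :=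
  Set.BijOn Φ (VN H) (VN G) ∧ Hom Φ

/-- `T` is the left translation by `h`. -/
def IsL {H : Type} [Group H] (h : H) (T : Op H) : Prop :=
  ∀ (f : E2 H) (x : H), val (T f) x = val f (h⁻¹ * x)

open Classical in
/-- `‖T e - T' e‖ < ε` for the unit vector `e` at the identity -/
def Close {G : Type} [Group G] (T T' : Op G) (ε : ℝ) : Prop :=
  ∀ e : E2 G, (∀ x : G, val e x = if x = 1 then 1 else 0) → ‖T e - T' e‖ < ε

theorem Emb.to {H G : Type} [Group H] [Group G] {Φ : Op H → Op G} (h : Emb Φ) : EmbVN H G Φ :=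
  ⟨h.1, h.2.1, h.2.2.1, h.2.2.2.1, h.2.2.2.2⟩

theorem Emb.of {H G : Type} [Group H] [Group G] {Φ : Op H → Op G} (h : EmbVN H G Φ) : Emb Φ :=
  ⟨h.maps, h.inj, h.one, h.alg, h.bicomm⟩

theorem Iso.to {H G : Type} [Group H] [Group G] {Φ : Op H → Op G} (h : Iso Φ) : IsoVN H G Φ :=
  ⟨h.1, h.2⟩

theorem isL (H : Type) [Group H] (h : H) : IsL h (L h : L2 H →L[ℂ] L2 H) :=
  fun f x => L_apply h f x

open Classical in
theorem val_bas (G : Type) [Group G] (x : G) :
    val (G := G) (bas G 1) x = if x = 1 then 1 else 0 := by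
  have h := orthonormal_iff_ite.1 (bas G).orthonormal x 1
  rw [bas_inner] at h
  exact h

/-- unitary representations -/
def Rep (Γ E : Type) [Group Γ] [NormedAddCommGroup E] [InnerProductSpace ℂ E] : Type :=
  Γ →* (E ≃ₗᵢ[ℂ] E)

/-- the action of `g` on `v` -/
def Rep.ap {Γ E : Type} [Group Γ] [NormedAddCommGroup E] [InnerProductSpace ℂ E] (π : Rep Γ E)
    (g : Γ) (v : E) : E := (show Γ →* (E ≃ₗᵢ[ℂ] E) from π) g v

/-- `(S, ε)` is a Kazhdan pair of `Γ`. -/
def KPair (Γ : Type) [Group Γ] (S : Finset Γ) (ε : ℝ) : Prop :=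
  0 < ε ∧ ∀ (E : Type) [NormedAddCommGroup E] [InnerProductSpace ℂ E] [CompleteSpace E]
    (π : Rep Γ E), (∃ v : E, ‖v‖ = 1 ∧ ∀ s ∈ S, ‖π.ap s v - v‖ < ε) →
      ∃ w : E, w ≠ 0 ∧ ∀ g : Γ, π.ap g w = w

theorem KPair.to {Γ : Type} [Group Γ] {S : Finset Γ} {ε : ℝ} (h : KPair Γ S ε) :
    Kazhdan Γ S ε := by
  refine ⟨h.1, ?_⟩
  intro E _ _ _ π hu hv
  exact h.2 E ((Unitary.linearIsometryEquiv.toMonoidHom).comp
    (π.codRestrict (unitary (E →L[ℂ] E)) hu) : Γ →* (E ≃ₗᵢ[ℂ] E)) hv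

/-- the kernels of the homomorphisms from `Γ` to groups `H` with `L(H)` embedded in `L(G)` -/
def Ker (Γ G : Type) [Group Γ] [Group G] : Set (Subgroup Γ) :=
  {N | ∃ (H : Type) (_ : Group H) (φ : Γ →* H), φ.ker = N ∧ ∃ Φ : Op H → Op G, Emb Φ}

/-- `A` and `B` are isomorphic modulo finite normal subgroups (so virtually isomorphic). -/
def ModFinite (A B : Type) [Group A] [Group B] : Prop :=
  ∃ (F : Subgroup A) (K : Subgroup B) (_ : F.Normal) (_ : K.Normal),
    Finite F ∧ Finite K ∧ Nonempty (A ⧸ F ≃* B ⧸ K)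

end Pool.Agent.Helper23.VT.Sm
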